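import Mathlib
import Pool.Agent.LatticeTrees.Final

/-!
# MP_047767_lc: an efficient approximately uniform sampler for lattice trees

Full positive answer to Q1 for the square, the hexagonal and the triangular lattice.
The definitions are in `Pool/Agent/LatticeTrees/Defs.lean`; the paper proof is in
`Pool/Agent/LatticeTrees/BLUEPRINT.md`.
-/

namespace Pool.Agent.Results.MP_047767_lc.EfficientSampler

open Pool.Agent.LatticeTrees

/-- For the square, the hexagonal and the triangular lattice there is a polynomial-time (Turing
machine) almost uniform sampler of lattice trees with `n` vertices. -/
theorem result (G : SimpleGraph (ℤ × ℤ))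
    (hG : G = squareLattice ∨ G = hexagonalLattice ∨ G = triangularLattice) :
    HasEfficientSampler G :=
  main G hG

end Pool.Agent.Results.MP_047767_lc.EfficientSampler
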